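import Pool.Agent.R882.TCore
import Pool.Agent.R882.CovSep
import Pool.Agent.R882.CovGT
import Pool.Agent.R882.KF
import Pool.Agent.N145.SX.Tri

/-!
Images of fibrations: if the canonical forms of the image do not give a generically finite map then
the traces of the twisted forms are proportional over the base.
-/

set_option autoImplicit false
set_option linter.overlappingInstances false
set_option linter.unusedSectionVars false
set_option maxHeartbeats 4000000
set_option synthInstance.maxHeartbeats 400000

open FF Module Pool.Agent.W602.GT Pool.Agent.W603.LV Pool.Agent.W619.PQ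
open Pool.Agent.Y184.NT Pool.Agent.W619.TW
open Pool.Agent.Y954.NT (exists_lift trace_der)
open Pool.Agent.R882.LT (IsTwisted SecAt secAt_of trForm_sec sep_coord exists_ratios_d)
open Pool.Agent.N145.SX (CanGe)

namespace Pool.Agent.J4.H19.FC

section

variable {K : Type} [Field K] [Algebra ℂ K] {n N M : ℕ}
  {L : Type} [Field L] [Algebra ℂ L] [Algebra L K] [IsScalarTower ℂ L K] [FiniteDimensional L K]

/-- a nonzero vector field which kills a subfield of corank one kills only algebraic functions -/
theorem alg_of_killed {B : IntermediateField ℂ K} {n : ℕ} (hB : Algebra.trdeg ℂ B = n)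
    (hK : Algebra.trdeg ℂ K = (n + 1 : ℕ)) (D : Derivation ℂ K K) (hD : D ≠ 0)
    (hDB : ∀ c ∈ B, D c = 0) {c : K} (hc : D c = 0) : IsAlgebraic B c := by
  by_contra hcB
  apply hD
  have hLK : Algebra.trdeg B K = (1 : ℕ) := Pool.Agent.Y174.trdeg_LK (r := 1) hB hK
  have h1 : AlgebraicIndependent B (fun _ : Fin 1 => c) := by
    rw [algebraicIndependent_unique_type_iff]
    exact hcB
  have h2 : IsTranscendenceBasis B (fun _ : Fin 1 => c) := by
    refine h1.isTranscendenceBasis_of_lift_trdeg_le_of_finite ?_
    rw [hLK]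
    simp
  obtain ⟨E, hE⟩ : ∃ E : IntermediateField ℂ K,
    E = (IntermediateField.adjoin B {c}).restrictScalars ℂ := ⟨_, rfl⟩
  have hkill : ∀ z ∈ E, D z = 0 := by
    let C0 : IntermediateField B K :=
      { carrier := {f | D f = 0}
        mul_mem' := fun {f g} hf hg => by
          change D (f * g) = 0
          rw [D.leibniz, show D f = 0 from hf, show D g = 0 from hg]
          simp
        add_mem' := fun {f g} hf hg => by
          change D (f + g) = 0
          rw [map_add, show D f = 0 from hf, show D g = 0 from hg, add_zero]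
        algebraMap_mem' := fun b => hDB b b.2
        inv_mem' := fun f hf => by
          change D f⁻¹ = 0
          rw [Derivation.leibniz_inv, show D f = 0 from hf, smul_zero] }
    have h3 : IntermediateField.adjoin B {c} ≤ C0 := by
      rw [IntermediateField.adjoin_le_iff]
      rintro _ rfl
      exact hc
    intro z hz
    rw [hE] at hz
    exact h3 hz
  ext z
  have h4 : IsAlgebraic E z := by
    have h5 := h2.isAlgebraic_field
    have h6 : IsAlgebraic (IntermediateField.adjoin B (Set.range fun _ : Fin 1 => c)) z :=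
      h5.isAlgebraic z
    rw [Set.range_const] at h6
    subst hE
    exact h6
  exact Pool.Agent.R882.WR.der_alg D hkill h4

/-- **The canonical map and the base.** If a twisted form has a nonzero trace on the image in
`W × V'` then the image of the canonical map of `W` has dimension at least `dim V'`. -/
theorem can_base [Algebra.EssFiniteType ℂ K] {n d : ℕ} (hK : Algebra.trdeg ℂ K = n)
    {t : Fin N → K} (hB : Algebra.trdeg ℂ (IntermediateField.adjoin ℂ (Set.range t)) = d)
    {ω : (Fin n → Derivation ℂ K K) → K} (hω : IsTwisted n M t ω)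
    (hdeg : 2 * Module.finrank L (IntermediateField.adjoin L (Set.range t)) ≤ M + 1)
    {F : IntermediateField ℂ K}
    (hF : F = (IntermediateField.adjoin L (Set.range t)).restrictScalars ℂ)
    (htn : Pool.Agent.R882.LT.TraceNe ω F) : CanGe L n d := by
  classical
  have hcL : CharZero L := charZero_of_injective_algebraMap (algebraMap ℂ L).injective
  have hessL : Algebra.EssFiniteType ℂ L := Pool.Agent.TH466.QG.ess_below (K := K)
  have hL : Algebra.trdeg ℂ L = n := Pool.Agent.Y184.NT.trdeg_below (K := K) hK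
  obtain ⟨y, E, hy, hE⟩ := Pool.Agent.Y172.exists_crd (k := ℂ) (K := L) hL
  choose E' hE' using fun i => Pool.Agent.Y172.exists_lift (k := ℂ) (K := L) (L := K) hL (E i)
  have hyK : IsTranscendenceBasis ℂ (fun j => algebraMap L K (y j)) := hy.algebraMap_comp
  have hE'd := Pool.Agent.Y172.lift_dual hE hE'
  obtain ⟨x, hx⟩ : ∃ x : Fin (N + 1) → K, x = Fin.cons 1 t := ⟨_, rfl⟩
  have hx0 : x 0 = 1 := by rw [hx, Fin.cons_zero]
  have hrange : Set.range x = insert 1 (Set.range t) := by
    rw [hx, Fin.range_cons]
  have hadj : IntermediateField.adjoin L (Set.range x) =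
      IntermediateField.adjoin L (Set.range t) := by
    rw [hrange]
    apply le_antisymm
    · rw [IntermediateField.adjoin_le_iff]
      rintro y (rfl | hy)
      · exact one_mem _
      · exact IntermediateField.subset_adjoin _ _ hy
    · exact IntermediateField.adjoin.mono _ _ _ (Set.subset_insert _ _)
  have hadjC : IntermediateField.adjoin ℂ (Set.range x) =
      IntermediateField.adjoin ℂ (Set.range t) := by
    rw [hrange]
    apply le_antisymm
    · rw [IntermediateField.adjoin_le_iff]
      rintro y (rfl | hy)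
      · exact one_mem _
      · exact IntermediateField.subset_adjoin _ _ hy
    · exact IntermediateField.adjoin.mono _ _ _ (Set.subset_insert _ _)
  rw [← hadj] at hdeg hF
  rw [← hadjC] at hB
  have hLF : ∀ f : L, algebraMap L K f ∈ F := by
    intro f
    rw [hF]
    exact (IntermediateField.adjoin L (Set.range x)).algebraMap_mem f
  have hne : Algebra.trace (IntermediateField.adjoin L (Set.range x)) K (ω E') ≠ 0 := by
    obtain ⟨D, D', hD, htr'⟩ := htn
    intro h0
    apply htr'
    have h1 : Algebra.trace F K (ω E') = 0 := by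
      subst hF
      have h2 : ((Algebra.trace (IntermediateField.adjoin L (Set.range x)) K (ω E') :
          IntermediateField.adjoin L (Set.range x)) : K) = 0 := by
        rw [h0]
        rfl
      apply Subtype.ext
      exact h2
    obtain ⟨δ, hδ⟩ : ∃ δ : F, δ = (Matrix.of fun i j => D i ⟨algebraMap L K (y j), hLF _⟩ :
      Matrix (Fin n) (Fin n) F).det := ⟨_, rfl⟩
    have h2 : ω D' = δ • ω E' := by
      rw [Pool.Agent.Y172.pluri_coord hyK hE'd hω.1 D', pow_one, Algebra.smul_def, hδ,
        RingHom.map_det]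
      congr 1
      congr 1
      ext i j
      rw [RingHom.mapMatrix_apply, Matrix.map_apply, Matrix.of_apply, Matrix.of_apply]
      exact hD i ⟨algebraMap L K (y j), hLF _⟩
    rw [h2, map_smul, h1, smul_zero]
  obtain ⟨x', hx'⟩ : ∃ x' : Fin (N + 1) → IntermediateField.adjoin L (Set.range x),
    ∀ j, (x' j : K) = x j :=
    ⟨fun j => ⟨x j, IntermediateField.subset_adjoin L _ ⟨j, rfl⟩⟩, fun _ => rfl⟩
  have hx'0 : x' 0 = 1 := by
    apply Subtype.ext
    rw [hx', hx0]
    rfl
  have hgen' := Pool.Agent.R882.WR.gen_self x' hx'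
  obtain ⟨W, hWdef⟩ : ∃ W : (Fin M → Fin (N + 1)) → (Fin n → Derivation ℂ K K) → K,
    W = fun f D => (∏ k, x (f k)) * ω D := ⟨_, rfl⟩
  have hWp : ∀ f, IsPluri 1 (W f) := by
    intro f A D
    rw [hWdef]
    change (∏ k, x (f k)) * ω (fun i => ∑ j, A i j • D j) = _
    rw [hω.1 A D]
    ring
  have hWr : ∀ f (P : Place ℂ K), Divisorial n P → SecAt (fun _ => False) P (W f) := by
    intro f P hP
    rw [hWdef, hx]
    exact secAt_of (hω.reg f P hP)
  obtain ⟨T, hTdef⟩ : ∃ T : (Fin M → Fin (N + 1)) → L,
    ∀ f, T f = Algebra.trace L K (W f E') := ⟨_, fun _ => rfl⟩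
  have hT : ∀ f, T f = Algebra.trace L (IntermediateField.adjoin L (Set.range x))
      ((∏ k, x' (f k)) *
        Algebra.trace (IntermediateField.adjoin L (Set.range x)) K (ω E')) := by
    intro f
    have h2 : W f E' = (∏ k, x' (f k)) • ω E' := by
      rw [hWdef, Algebra.smul_def]
      change (∏ k, x (f k)) * ω E' = _
      congr 1
      rw [map_prod]
      exact Finset.prod_congr rfl fun k _ => (hx' _).symm
    rw [hTdef, h2, ← Algebra.trace_trace (S := IntermediateField.adjoin L (Set.range x)),
      map_smul, smul_eq_mul]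
  have hθE : ∀ t, trForm y t E = t := by
    intro t
    have h1 : (Matrix.of fun i j => E i (y j) : Matrix (Fin n) (Fin n) L) = 1 := by
      ext i j
      rw [Matrix.of_apply, hE, Matrix.one_apply]
    rw [trForm, h1, Matrix.det_one, one_mul]
  have hθr : ∀ f (P : Place ℂ L), Divisorial n P → RegAt P (trForm y (T f)) := by
    intro f P hP
    rw [hTdef]
    exact (trForm_sec (BL := fun _ => False) hL hy hE hE' (W f) (hWp f) (fun _ _ _ _ h => h)
      (hWr f) P hP).2 fun h => h
  have hd' : Algebra.trdeg ℂ (IntermediateField.adjoin ℂ (Set.range x')) = d := by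
    rw [← hB]
    have htw : IsScalarTower ℂ (IntermediateField.adjoin L (Set.range x)) K :=
      IsScalarTower.of_algebraMap_eq fun r => rfl
    let φ : IntermediateField.adjoin L (Set.range x) →ₐ[ℂ] K :=
      IsScalarTower.toAlgHom ℂ (IntermediateField.adjoin L (Set.range x)) K
    have h1 : (IntermediateField.adjoin ℂ (Set.range x')).map φ =
        IntermediateField.adjoin ℂ (Set.range x) := by
      rw [IntermediateField.adjoin_map]
      congr 1
      ext z
      constructor
      · rintro ⟨_, ⟨j, rfl⟩, rfl⟩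
        exact ⟨j, (hx' j).symm⟩
      · rintro ⟨j, rfl⟩
        exact ⟨x' j, ⟨j, rfl⟩, hx' j⟩
    have h2 := (IntermediateField.equivMap (IntermediateField.adjoin ℂ (Set.range x')) φ)
    rw [h1] at h2
    exact h2.trdeg_eq
  obtain ⟨f0, hf0⟩ : ∃ f0, T f0 ≠ 0 := by
    by_contra hcon
    push Not at hcon
    have h1 := (Pool.Agent.Y614.NT.stLine Pool.Agent.Y153.NT.stCB L
      (IntermediateField.adjoin L (Set.range x)) (N + 1) M x' 0 hx'0 hgen' _ hne
      (fun f => by rw [← hT, hcon]) (by omega)).1
    omega
  obtain ⟨s, hs0, hs⟩ := exists_ratios_d (L := L)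
    (K := IntermediateField.adjoin L (Set.range x)) hL hd' T ⟨_, hf0⟩
    (fun D hD D' hD' j => sep_coord Pool.Agent.Y141.NT.stCB2 (x := x') (j0 := 0) hx'0 hgen' hdeg
      hne hT D hD D' hD' j)
  refine ⟨fun j => trForm y (T (s j)), fun l => ⟨trForm_pluri y _, fun P hP => hθr _ P hP⟩, E,
    ?_, ?_⟩
  · change trForm y (T (s 0)) E ≠ 0
    rw [hθE]
    exact hs0
  · simp only [hθE]
    exact hs

/-- **The traces.** If the ratios of the canonical forms of `W` are algebraically dependent then the
traces on the image in `W × V'` of the twisted forms are multiples of one of them by functions of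
`V'`. -/
theorem line_of_not_can [Algebra.EssFiniteType ℂ K] (hK : Algebra.trdeg ℂ K = (n + 1 : ℕ))
    {t : Fin N → K} (hB : Algebra.trdeg ℂ (IntermediateField.adjoin ℂ (Set.range t)) = n)
    (hcl : ∀ z : K, IsAlgebraic (IntermediateField.adjoin ℂ (Set.range t)) z →
      z ∈ IntermediateField.adjoin ℂ (Set.range t))
    {J : Type} {ω : J → (Fin (n + 1) → Derivation ℂ K K) → K}
    (hω : ∀ j, IsTwisted (n + 1) M t (ω j))
    (hdeg : 2 * Module.finrank L (IntermediateField.adjoin L (Set.range t)) ≤ M + 1)
    (hcan : ¬ CanGe L (n + 1) (n + 1)) {y : Fin (n + 1) → L} {E : Fin (n + 1) → Derivation ℂ L L}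
    (hy : IsTranscendenceBasis ℂ y) (hE : ∀ i j, E i (y j) = if i = j then 1 else 0)
    {E' : Fin (n + 1) → Derivation ℂ K K}
    (hE' : ∀ i f, E' i (algebraMap L K f) = algebraMap L K (E i f)) {j0 : J}
    (hne : Algebra.trace (IntermediateField.adjoin L (Set.range t)) K (ω j0 E') ≠ 0) (j : J) :
    ∃ c ∈ IntermediateField.adjoin ℂ (Set.range t),
      ((Algebra.trace (IntermediateField.adjoin L (Set.range t)) K (ω j E') :
        IntermediateField.adjoin L (Set.range t)) : K) =
      c * ((Algebra.trace (IntermediateField.adjoin L (Set.range t)) K (ω j0 E') :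
        IntermediateField.adjoin L (Set.range t)) : K) := by
  classical
  have hcL : CharZero L := charZero_of_injective_algebraMap (algebraMap ℂ L).injective
  have hessL : Algebra.EssFiniteType ℂ L := Pool.Agent.TH466.QG.ess_below (K := K)
  have hL : Algebra.trdeg ℂ L = (n + 1 : ℕ) := Pool.Agent.Y184.NT.trdeg_below (K := K) hK
  obtain ⟨x, hx⟩ : ∃ x : Fin (N + 1) → K, x = Fin.cons 1 t := ⟨_, rfl⟩
  have hx0 : x 0 = 1 := by rw [hx, Fin.cons_zero]
  have hrange : Set.range x = insert 1 (Set.range t) := by
    rw [hx, Fin.range_cons]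
  have hadj : IntermediateField.adjoin L (Set.range x) =
      IntermediateField.adjoin L (Set.range t) := by
    rw [hrange]
    apply le_antisymm
    · rw [IntermediateField.adjoin_le_iff]
      rintro y (rfl | hy)
      · exact one_mem _
      · exact IntermediateField.subset_adjoin _ _ hy
    · exact IntermediateField.adjoin.mono _ _ _ (Set.subset_insert _ _)
  rw [← hadj] at hdeg hne ⊢
  obtain ⟨x', hx'⟩ : ∃ x' : Fin (N + 1) → IntermediateField.adjoin L (Set.range x),
    ∀ j, (x' j : K) = x j :=
    ⟨fun j => ⟨x j, IntermediateField.subset_adjoin L _ ⟨j, rfl⟩⟩, fun _ => rfl⟩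
  have hx'0 : x' 0 = 1 := by
    apply Subtype.ext
    rw [hx', hx0]
    rfl
  have hgen' := Pool.Agent.R882.WR.gen_self x' hx'
  obtain ⟨σ, hσ⟩ : ∃ σ : J → IntermediateField.adjoin L (Set.range x),
    ∀ j, σ j = Algebra.trace (IntermediateField.adjoin L (Set.range x)) K (ω j E') :=
    ⟨_, fun _ => rfl⟩
  rw [← hσ] at hne
  rw [← hσ, ← hσ]
  obtain ⟨W, hWdef⟩ : ∃ W : J × (Fin M → Fin (N + 1)) → (Fin (n + 1) → Derivation ℂ K K) → K,
    W = fun p D => (∏ k, x (p.2 k)) * ω p.1 D := ⟨_, rfl⟩
  have hWp : ∀ p, IsPluri 1 (W p) := by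
    intro p A D
    rw [hWdef]
    change (∏ k, x (p.2 k)) * ω p.1 (fun i => ∑ j, A i j • D j) = _
    rw [(hω p.1).1 A D]
    ring
  have hWr : ∀ p (P : Place ℂ K), Divisorial (n + 1) P → SecAt (fun _ => False) P (W p) := by
    intro p P hP
    rw [hWdef, hx]
    exact secAt_of ((hω p.1).reg p.2 P hP)
  obtain ⟨T, hTdef⟩ : ∃ T : J × (Fin M → Fin (N + 1)) → L,
    ∀ p, T p = Algebra.trace L K (W p E') := ⟨_, fun _ => rfl⟩
  have hT : ∀ p, T p = Algebra.trace L (IntermediateField.adjoin L (Set.range x))
      ((∏ k, x' (p.2 k)) * σ p.1) := by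
    intro p
    have h2 : W p E' = (∏ k, x' (p.2 k)) • ω p.1 E' := by
      rw [hWdef, Algebra.smul_def]
      change (∏ k, x (p.2 k)) * ω p.1 E' = _
      congr 1
      rw [map_prod]
      exact Finset.prod_congr rfl fun k _ => (hx' _).symm
    rw [hTdef, h2, ← Algebra.trace_trace (S := IntermediateField.adjoin L (Set.range x)),
      map_smul, smul_eq_mul, hσ]
  have hθE : ∀ t, trForm y t E = t := by
    intro t
    have h1 : (Matrix.of fun i j => E i (y j) : Matrix (Fin (n + 1)) (Fin (n + 1)) L) = 1 := by
      ext i j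
      rw [Matrix.of_apply, hE, Matrix.one_apply]
    rw [trForm, h1, Matrix.det_one, one_mul]
  have hθr : ∀ p (P : Place ℂ L), Divisorial (n + 1) P → RegAt P (trForm y (T p)) := by
    intro p P hP
    rw [hTdef]
    exact (trForm_sec (BL := fun _ => False) hL hy hE hE' (W p) (hWp p) (fun _ _ _ _ h => h)
      (hWr p) P hP).2 fun h => h
  -- the vanishing criterion
  have hvan : ∀ u : IntermediateField.adjoin L (Set.range x),
      (∀ f : Fin M → Fin (N + 1), Algebra.trace L (IntermediateField.adjoin L (Set.range x))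
        ((∏ k, x' (f k)) * u) = 0) → u = 0 := by
    intro u hu
    by_contra hu0
    have h1 := (Pool.Agent.Y614.NT.stLine Pool.Agent.Y153.NT.stCB L
      (IntermediateField.adjoin L (Set.range x)) (N + 1) M x' 0 hx'0 hgen' u hu0 hu (by omega)).1
    omega
  obtain ⟨f0, hf0⟩ : ∃ f0, T (j0, f0) ≠ 0 := by
    by_contra hcon
    push Not at hcon
    refine hne (hvan _ fun f => ?_)
    rw [← hT (j0, f), hcon]
  -- the vector field
  obtain ⟨D, hTD, hD0⟩ : ∃ D : Derivation ℂ L L, (∀ f g, T f * D (T g) = T g * D (T f)) ∧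
      D ≠ 0 := by
    by_contra hcon
    push Not at hcon
    apply hcan
    obtain ⟨s, hs0, hs⟩ := exists_ratios_d (K := L) (d := n + 1) hL
      (Pool.Agent.R882.KR.trdeg_adj hy.1) T ⟨_, hf0⟩ (fun D hD D' hD' j => by
        have h1 := hcon D hD
        have h2 := hD' (y j)
        rw [h1] at h2
        exact h2)
    refine ⟨fun j => trForm y (T (s j)), fun l => ⟨trForm_pluri y _, fun P hP => hθr _ P hP⟩, E,
      ?_, ?_⟩
    · change trForm y (T (s 0)) E ≠ 0
      rw [hθE]
      exact hs0
    · simp only [hθE]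
      exact hs
  have htw : IsScalarTower ℂ (IntermediateField.adjoin L (Set.range x)) K :=
    IsScalarTower.of_algebraMap_eq fun r => rfl
  obtain ⟨D1, hD1⟩ := exists_lift (K := IntermediateField.adjoin L (Set.range x)) D
  obtain ⟨D2, hD2⟩ := exists_lift (K := K) D1
  have hD1x : ∀ j, D1 (x' j) = 0 := fun j =>
    sep_coord Pool.Agent.Y141.NT.stCB2 (x := x') (j0 := 0) hx'0 hgen' hdeg hne
      (T := fun f => T (j0, f)) (fun f => hT (j0, f)) D (fun f g => hTD _ _) D1 hD1 j
  obtain ⟨lam, hlam⟩ : ∃ lam : L, ∀ p, D (T p) = lam * T p := by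
    refine ⟨D (T (j0, f0)) / T (j0, f0), fun p => ?_⟩
    have h1 := hTD p (j0, f0)
    rw [div_mul_eq_mul_div, eq_div_iff hf0]
    linear_combination -h1
  have hprod : ∀ f : Fin M → Fin (N + 1), D1 (∏ k, x' (f k)) = 0 := by
    intro f
    have : ∀ s : Finset (Fin M), D1 (∏ k ∈ s, x' (f k)) = 0 := by
      intro s
      induction s using Finset.induction_on with
      | empty =>
        rw [Finset.prod_empty]
        exact D1.map_one_eq_zero
      | insert a s ha ih =>
        rw [Finset.prod_insert ha, D1.leibniz, ih, hD1x, smul_zero, smul_zero, add_zero]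
    exact this _
  have hσD : ∀ j, D1 (σ j) = algebraMap L _ lam * σ j := by
    intro j
    have h1 : D1 (σ j) - algebraMap L _ lam * σ j = 0 := by
      refine hvan _ fun f => ?_
      have h2 : D1 ((∏ k, x' (f k)) * σ j) = (∏ k, x' (f k)) * D1 (σ j) := by
        rw [D1.leibniz, hprod, smul_zero, add_zero, smul_eq_mul]
      have h3 := trace_der hD1 ((∏ k, x' (f k)) * σ j)
      rw [h2, ← hT (j, f), hlam, hT (j, f)] at h3
      have h4 : (∏ k, x' (f k)) * (D1 (σ j) - algebraMap L _ lam * σ j) =
          (∏ k, x' (f k)) * D1 (σ j) - lam • ((∏ k, x' (f k)) * σ j) := by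
        rw [Algebra.smul_def]
        ring
      rw [h4, map_sub, map_smul, h3, smul_eq_mul, sub_self]
    exact sub_eq_zero.1 h1
  have hratio : D1 (σ j / σ j0) = 0 := by
    rw [div_eq_mul_inv, D1.leibniz, Derivation.leibniz_inv, hσD, hσD, smul_eq_mul, smul_eq_mul,
      smul_eq_mul]
    field_simp
    ring
  have hx'K : ∀ j, algebraMap (IntermediateField.adjoin L (Set.range x)) K (x' j) = x j := hx'
  have hD2t : ∀ j, D2 (t j) = 0 := by
    intro j
    have h1 := hD2 (x' j.succ)
    rw [hD1x, map_zero, hx'K, hx, Fin.cons_succ] at h1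
    exact h1
  have hD2B := Pool.Agent.R882.WR.der_adjoin D2 hD2t
  have hD20 : D2 ≠ 0 := by
    intro h
    apply hD0
    ext z
    have h1 := hD2 (algebraMap L _ z)
    rw [h, hD1] at h1
    have h2 : algebraMap L (IntermediateField.adjoin L (Set.range x)) (D z) = 0 :=
      (map_eq_zero _).1 h1.symm
    exact (map_eq_zero _).1 h2
  have hcK : D2 (algebraMap (IntermediateField.adjoin L (Set.range x)) K (σ j / σ j0)) = 0 := by
    rw [hD2, hratio, map_zero]
  refine ⟨algebraMap (IntermediateField.adjoin L (Set.range x)) K (σ j / σ j0),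
    hcl _ (alg_of_killed hB hK D2 hD20 hD2B hcK), ?_⟩
  change algebraMap (IntermediateField.adjoin L (Set.range x)) K (σ j) =
    _ * algebraMap (IntermediateField.adjoin L (Set.range x)) K (σ j0)
  rw [← map_mul, div_mul_cancel₀ _ hne]

end

end Pool.Agent.J4.H19.FC
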