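import Pool.Agent.J4.H19.FC.Abs
import Pool.Agent.J4.H19.FC.Line
import Pool.Agent.N145.SX.All3
import Pool.Agent.N145.SX.Abun
import Pool.Agent.N145.PL.Dich2
import Pool.Agent.TH466.QG.Low
import Pool.Agent.W602.GT.KPsefS

/-!
Images of fibrations by curves over arbitrary varieties.
-/

set_option autoImplicit false
set_option linter.overlappingInstances false
set_option linter.unusedSectionVars false
set_option maxHeartbeats 4000000
set_option synthInstance.maxHeartbeats 400000

open IntermediateField Module FF Pool.Agent.W619.PQ Pool.Agent.W603.LV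
open Pool.Agent.W602.GT
open Pool.Agent.N145.SX (GLO Cov1 CanGe)
open Pool.Agent.R882.LT (TraceNe IsTwisted)

namespace Pool.Agent.J4.H19.FC

variable {K : Type} [Field K] [Algebra ℂ K] {n : ℕ}

/-- **The dichotomy for the images of a fibration by curves.** The proof is that of
`Pool.Agent.R882.GL.dich`. -/
theorem dich_gen [hess : Algebra.EssFiniteType ℂ K] (hK : Algebra.trdeg ℂ K = (n + 1 : ℕ))
    (B : IntermediateField ℂ K) (hB : Algebra.trdeg ℂ B = n)
    (hcl : ∀ z : K, IsAlgebraic B z → z ∈ B) (E' : IntermediateField B K)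
    [FiniteDimensional E' K] {J : Type} [Finite J]
    (ω : J → (Fin (n + 1) → Derivation ℂ K K) → K) (hω : ∀ j, IsPluri 1 (ω j))
    (hreg : ∀ j (P : Place ℂ K), Divisorial (n + 1) P → RegAt P (ω j))
    (hspan : Gen B ω) (htr : ∀ j, ¬ TraceNe (ω j) (E'.restrictScalars ℂ)) :
    IsUniruled ℂ (E'.restrictScalars ℂ) (n + 1) := by
  classical
  have hcl' : ∀ z : K, IsIntegral B z → ∃ y : B, algebraMap B K y = z := fun z hz =>
    ⟨⟨z, hcl z hz.isAlgebraic⟩, rfl⟩
  let Ω := AlgebraicClosure K
  let Λ : IntermediateField B Ω := algebraicClosure B Ω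
  have hΛ : IsAlgClosed Λ := (algebraicClosure.isAlgClosure B Ω).isAlgClosed
  have hΛalg : Algebra.IsAlgebraic B Λ := inferInstance
  let F : IntermediateField Λ Ω := IntermediateField.adjoin Λ (Set.range (algebraMap K Ω))
  have hTL : IsScalarTower ℂ B Ω := IsScalarTower.of_algebraMap_eq fun z => by
    rw [IsScalarTower.algebraMap_apply ℂ K Ω]
    rfl
  have hTΛ : IsScalarTower ℂ Λ Ω := IsScalarTower.of_algebraMap_eq fun z => by
    rw [IsScalarTower.algebraMap_apply ℂ B Ω]
    rfl
  let φ0 : K →+* F :=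
    { toFun := fun z => ⟨algebraMap K Ω z, IntermediateField.subset_adjoin _ _ ⟨z, rfl⟩⟩
      map_one' := Subtype.ext (map_one _)
      map_mul' := fun a b => Subtype.ext (map_mul _ _ _)
      map_zero' := Subtype.ext (map_zero _)
      map_add' := fun a b => Subtype.ext (map_add _ _ _) }
  let iKF : Algebra K F := φ0.toAlgebra
  have hKF : ∀ z : K, ((algebraMap K F z : F) : Ω) = algebraMap K Ω z := fun z => rfl
  have hT1 : IsScalarTower B K F := IsScalarTower.of_algebraMap_eq fun z => Subtype.ext rfl
  have hT2 : IsScalarTower ℂ K F := IsScalarTower.of_algebraMap_eq fun z => by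
    apply Subtype.ext
    rw [hKF, ← IsScalarTower.algebraMap_apply ℂ K Ω]
    rfl
  have hT3 : IsScalarTower ℂ B Λ := inferInstance
  have hT4 : IsScalarTower B Λ F := IsScalarTower.of_algebraMap_eq fun z => Subtype.ext rfl
  have hT5 : IsScalarTower ℂ Λ F := inferInstance
  have hgenF : IntermediateField.adjoin Λ (Set.range (algebraMap K F)) = ⊤ := by
    have h1 : (IntermediateField.adjoin Λ (Set.range (algebraMap K F))).map F.val =
        (⊤ : IntermediateField Λ F).map F.val := by
      rw [IntermediateField.adjoin_map, ← AlgHom.fieldRange_eq_map,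
        IntermediateField.fieldRange_val]
      congr 1
      ext z
      simp only [Set.mem_image, Set.mem_range]
      constructor
      · rintro ⟨_, ⟨y, rfl⟩, rfl⟩
        exact ⟨y, rfl⟩
      · rintro ⟨y, rfl⟩
        exact ⟨_, ⟨y, rfl⟩, rfl⟩
    exact IntermediateField.map_injective _ h1
  have hLK : Algebra.trdeg B K = (1 : ℕ) := Pool.Agent.Y174.trdeg_LK (r := 1) hB hK
  have htrF : Algebra.trdeg Λ F = (1 : ℕ) :=
    Pool.Agent.Y174.trdeg_F (L := B) (K := K) hLK hgenF
  have hessF : Algebra.EssFiniteType Λ F := Pool.Agent.Y174.ess_F (k := ℂ) (K := K) hess hgenF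
  have hFF : IsFF Λ F := ⟨hessF, by rw [htrF]; simp⟩
  refine Pool.Agent.R882.GL.dich_abs (Λ := Λ) (F := F) hK hB hcl' hgenF E' ω hω hreg ?_ htr
  intro t ξ ht hZ Ef hEf D hD _ f hf0 hf
  have hD0 : D ≠ 0 := by
    intro h0
    rw [h0] at hD
    exact zero_ne_one hD
  refine hspan t ξ (fun j => by
    obtain ⟨b, hb⟩ := ht j
    rw [← hb]
    exact b.2) hZ Ef hEf D hD f fun Q u hu => Or.inr ?_
  have h1 := hf Q
  rwa [← vo_eq Q hu hD0] at h1

/-- `p_g = 0` -/
def GenusZero (L : Type) [Field L] [Algebra ℂ L] (n : ℕ) : Prop :=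
  ∀ ω : (Fin n → Derivation ℂ L L) → L, IsPluri 1 ω →
    (∀ P : Place ℂ L, Divisorial n P → RegAt P ω) → ∀ D, ω D = 0

theorem main {N M : ℕ} [hess : Algebra.EssFiniteType ℂ K] (hK : Algebra.trdeg ℂ K = (n + 1 : ℕ))
    {t : Fin N → K} (hB : Algebra.trdeg ℂ (IntermediateField.adjoin ℂ (Set.range t)) = n)
    (hcl : ∀ z : K, IsAlgebraic (IntermediateField.adjoin ℂ (Set.range t)) z →
      z ∈ IntermediateField.adjoin ℂ (Set.range t))
    {J : Type} [Finite J] {ω : J → (Fin (n + 1) → Derivation ℂ K K) → K}
    (hω : ∀ j, IsTwisted (n + 1) M t (ω j))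
    (hspan : Gen (IntermediateField.adjoin ℂ (Set.range t)) ω)
    (L : Type) [Field L] [Algebra ℂ L] [Algebra L K] [IsScalarTower ℂ L K]
    [FiniteDimensional L K] :
    (Module.finrank L (IntermediateField.adjoin L (Set.range t)) ≤ M + 1 →
      [GenusZero L (n + 1), ¬ KodGe ℂ L (n + 1) (fun _ => False) 0,
        ¬ Psef ℂ L (n + 1) (fun _ => False), IsUniruled ℂ L (n + 1)].TFAE) ∧
    (2 * Module.finrank L (IntermediateField.adjoin L (Set.range t)) ≤ M + 1 →
      [Psef ℂ L (n + 1) (fun _ => False), KodGe ℂ L (n + 1) (fun _ => False) n,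
        ¬ IsUniruled ℂ L (n + 1)].TFAE ∧
      [KodGe ℂ L (n + 1) (fun _ => False) (n + 1), CanGe L (n + 1) (n + 1),
        ¬ Cov1 L n].TFAE ∧
      ∀ j : ℕ, KodGe ℂ L (n + 1) (fun _ => False) j ↔ CanGe L (n + 1) j) := by
  classical
  have hL : Algebra.trdeg ℂ L = (n + 1 : ℕ) := Pool.Agent.Y184.NT.trdeg_below (K := K) hK
  have hessL : Algebra.EssFiniteType ℂ L := Pool.Agent.TH466.QG.ess_below (K := K)
  have hregω : ∀ p (P : Place ℂ K), Divisorial (n + 1) P → RegAt P (ω p) := by
    intro p P hP D hD
    have h1 := (hω p).2 0 (by simp) P hP D hD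
    simpa using h1
  -- the image in `W × V'`
  have hle : IntermediateField.adjoin ℂ (Set.range t) ≤
      (IntermediateField.adjoin L (Set.range t)).restrictScalars ℂ := by
    rw [IntermediateField.adjoin_le_iff]
    exact IntermediateField.subset_adjoin L _
  obtain ⟨E', hE'⟩ : ∃ E' : IntermediateField (IntermediateField.adjoin ℂ (Set.range t)) K,
      E' = IntermediateField.extendScalars hle := ⟨_, rfl⟩
  have hE'r : E'.restrictScalars ℂ =
      (IntermediateField.adjoin L (Set.range t)).restrictScalars ℂ := by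
    rw [hE']
    exact IntermediateField.extendScalars_restrictScalars hle
  have hfinE : FiniteDimensional E' K := by
    have h1 : FiniteDimensional (IntermediateField.adjoin L (Set.range t)) K := inferInstance
    rw [hE']
    exact h1
  let φ : L →ₐ[ℂ] ((IntermediateField.adjoin L (Set.range t)).restrictScalars ℂ :
      IntermediateField ℂ K) :=
    { toFun := fun g => ⟨algebraMap L K g,
        (IntermediateField.adjoin L (Set.range t)).algebraMap_mem g⟩
      map_one' := Subtype.ext (map_one _)
      map_mul' := fun a b => Subtype.ext (map_mul _ _ _)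
      map_zero' := Subtype.ext (map_zero _)
      map_add' := fun a b => Subtype.ext (map_add _ _ _)
      commutes' := fun c => Subtype.ext (IsScalarTower.algebraMap_apply ℂ L K c).symm }
  have huni : (∀ p, ¬ TraceNe (ω p)
      ((IntermediateField.adjoin L (Set.range t)).restrictScalars ℂ)) →
      IsUniruled ℂ L (n + 1) := by
    intro h
    have h1 := dich_gen hK _ hB hcl E' ω (fun p => (hω p).1) hregω hspan
      (fun p => by rw [hE'r]; exact h p)
    rw [hE'r] at h1
    obtain ⟨C, i1, i2, hC, htr, ⟨ψ⟩⟩ := h1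
    exact ⟨C, i1, i2, hC, htr, ⟨ψ.comp φ⟩⟩
  have hneg : IsUniruled ℂ L (n + 1) → ¬ Psef ℂ L (n + 1) (fun _ => False) := fun h h' =>
    (Pool.Agent.W619.Y.uniruled_neg (n + 1) hL h).1 ((Pool.Agent.TH466.QG.psef_iff (n + 1)).1 h')
  refine ⟨fun hs => ?_, fun hs => ?_⟩
  · tfae_have 1 → 4 := by
      intro hg
      refine huni fun p htr => ?_
      obtain ⟨η, hη, hηr, D, hD⟩ :=
        (Pool.Agent.R882.LT.core_img (L := L) hK hB rfl (hω p) htr).1 hs
      exact hD (hg η hη hηr D)
    tfae_have 4 → 3 := hneg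
    tfae_have 3 → 2 := fun h h' => h (psef_of_kodGe h')
    tfae_have 2 → 1 := by
      intro h ω hω hreg D
      by_contra hne
      refine h ⟨1, one_pos, fun _ => ω, fun _ => ⟨hω, fun P hP D' hD' => ?_,
        fun P hP _ => hreg P hP⟩, D, hne, ?_⟩
      · exact hreg P hP D' fun i => Pool.Agent.TH466.QG.derReg_of_log (hD' i)
      · exact algebraicIndependent_empty_type
    tfae_finish
  · have hdich : ¬ IsUniruled ℂ L (n + 1) → CanGe L (n + 1) n := by
      intro hnu
      obtain ⟨p, htr⟩ : ∃ p, TraceNe (ω p)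
          ((IntermediateField.adjoin L (Set.range t)).restrictScalars ℂ) := by
        by_contra hcon
        push Not at hcon
        exact hnu (huni hcon)
      exact can_base (L := L) hK hB (hω p) hs rfl htr
    -- coverings by curves of genus at most one
    have hcov : ¬ CanGe L (n + 1) (n + 1) → Cov1 L n := by
      intro hcan
      obtain ⟨y, E, hy, hE⟩ := Pool.Agent.Y172.exists_crd (k := ℂ) (K := L) hL
      choose E1 hE1 using fun i =>
        Pool.Agent.Y172.exists_lift (k := ℂ) (K := L) (L := K) hL (E i)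
      have hyK : IsTranscendenceBasis ℂ (fun j => algebraMap L K (y j)) := hy.algebraMap_comp
      have hE1d := Pool.Agent.Y172.lift_dual hE hE1
      have hline : ∃ S1 : K, ∀ j, ∃ c ∈ IntermediateField.adjoin ℂ (Set.range t),
          ((Algebra.trace (IntermediateField.adjoin L (Set.range t)) K (ω j E1) :
            IntermediateField.adjoin L (Set.range t)) : K) = c * S1 := by
        by_cases h0 : ∃ j0, Algebra.trace (IntermediateField.adjoin L (Set.range t)) K
            (ω j0 E1) ≠ 0
        · obtain ⟨j0, h0⟩ := h0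
          exact ⟨_, fun j => line_of_not_can hK hB hcl hω hs hcan hy hE hE1 h0 j⟩
        · push Not at h0
          exact ⟨0, fun j => ⟨0, zero_mem _, by rw [h0, mul_zero]; rfl⟩⟩
      obtain ⟨S1, hS1⟩ := hline
      have hline' : ∀ j, ∃ c ∈ IntermediateField.adjoin ℂ (Set.range t),
          ((Algebra.trace E' K (ω j E1) : E') : K) = c * S1 := by
        intro j
        obtain ⟨c, hc, h⟩ := hS1 j
        refine ⟨c, hc, ?_⟩
        rw [← h]
        subst hE'
        rfl
      have hLE : ∀ z : L, algebraMap L K z ∈ E' := by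
        intro z
        have h1 : algebraMap L K z ∈ E'.restrictScalars ℂ := by
          rw [hE'r]
          exact (IntermediateField.adjoin L (Set.range t)).algebraMap_mem z
        exact h1
      obtain ⟨Λ, F, i1, i2, i3, i4, i5, i6, i7, i8, hΛ, hglo, ⟨ψ⟩⟩ :=
        cov_of_line hK _ hB hcl E' ω hspan fun D0 Ef hEf => by
          obtain ⟨δ, hδ⟩ : ∃ δ : E', (δ : K) =
              (Matrix.of fun i j => Ef i (algebraMap L K (y j))).det := by
            obtain ⟨A, hA⟩ : ∃ A : Matrix (Fin (n + 1)) (Fin (n + 1)) E',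
                ∀ i j, (A i j : K) = Ef i (algebraMap L K (y j)) :=
              ⟨fun i j => ⟨Ef i (algebraMap L K (y j)), by
                have h1 := hEf i ⟨algebraMap L K (y j), hLE (y j)⟩
                change Ef i (algebraMap L K (y j)) = _ at h1
                rw [h1]
                exact (D0 i ⟨algebraMap L K (y j), hLE (y j)⟩).2⟩, fun _ _ => rfl⟩
            refine ⟨A.det, ?_⟩
            change algebraMap E' K A.det = _
            rw [RingHom.map_det]
            congr 1
            ext i j
            exact hA i j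
          refine ⟨(δ : K) * S1, fun j => ?_⟩
          obtain ⟨c, hc, h⟩ := hline' j
          refine ⟨c, hc, ?_⟩
          have h2 : ω j Ef = δ • ω j E1 := by
            rw [Pool.Agent.Y172.pluri_coord hyK hE1d (hω j).1 Ef, pow_one, Algebra.smul_def]
            change _ = (δ : K) * _
            rw [hδ]
          rw [h2, map_smul, smul_eq_mul]
          change (δ : K) * ((Algebra.trace E' K (ω j E1) : E') : K) = _
          rw [h]
          ring
      refine ⟨Λ, F, i1, i2, i3, i4, i5, i6, i7, i8, hΛ, hglo, ⟨?_⟩⟩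
      rw [hE'r] at ψ
      exact ψ.comp φ
    have htfae : [KodGe ℂ L (n + 1) (fun _ => False) (n + 1), CanGe L (n + 1) (n + 1),
        ¬ Cov1 L n].TFAE := by
      tfae_have 1 → 3 := fun h hc => Pool.Agent.N145.SX.not_gt_of_cov1 hL hc h
      tfae_have 3 → 2 := fun h => by
        by_contra hcan
        exact h (hcov hcan)
      tfae_have 2 → 1 := Pool.Agent.N145.SX.kodGe_of_canGe
      tfae_finish
    refine ⟨?_, htfae, ?_⟩
    · tfae_have 1 → 3 := fun h h' => hneg h' h
      tfae_have 3 → 2 := fun h => Pool.Agent.N145.SX.kodGe_of_canGe (hdich h)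
      tfae_have 2 → 1 := Pool.Agent.N145.PL.psef_of_kodGe'
      tfae_finish
    · intro j
      refine ⟨fun h => ?_, Pool.Agent.N145.SX.kodGe_of_canGe⟩
      have h1 : CanGe L (n + 1) n := hdich fun h' => hneg h' (Pool.Agent.N145.PL.psef_of_kodGe' h)
      rcases lt_trichotomy j (n + 1) with hj | hj | hj
      · exact Pool.Agent.N145.SX.canGe_mono (by omega) h1
      · subst hj
        exact (htfae.out 0 1).1 h
      · exfalso
        obtain ⟨w, hw, ω, hω, D, hD, hind⟩ := h
        have h2 := hind.lift_cardinalMk_le_trdeg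
        rw [hL] at h2
        simp only [Cardinal.mk_fin, Cardinal.lift_natCast] at h2
        have h3 : j ≤ n + 1 := by exact_mod_cast h2
        omega

end Pool.Agent.J4.H19.FC
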