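import Pool.Agent.J4.H19.FC.Main
import Pool.Agent.N145.SX.MFin

/-!
# Abundance for the images of fibrations by curves over arbitrary varieties

Let `V` be an arbitrary variety over `ℂ` of dimension `n + 1` and `V ⇢ V' ⊂ ℙ^N` a dominant rational
map to an arbitrary variety of dimension `n`, given by the rational functions `t 1, ..., t N`, with
irreducible general fibres (curves of any genus, any moduli, and any singular fibres). Let `H` be the
hyperplane class of `V'` and `M ≥ 0`. The only hypothesis is that the sections of `K_V - M H`
generate the differentials of the fibres: there are canonical forms `ω j` of `V`, sections of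
`K_V - M H`, whose restrictions to the geometric generic fibre `C` of `V ⇢ V'` generate
`H⁰(C, K_C)`. For a morphism `f : V → V'` of manifolds this says that the direct image of
`K_V - M H` is generated by its sections at the generic point of `V'`. It is satisfied for the base
change `V = V₀ ×_{V₀'} V'` of any fibration `V₀ → V₀'` by curves, if the canonical class of the cover
`V'` of `V₀'` is sufficiently positive, for `V' × C` if `K_{V'} - M H` is effective, for the general
hypersurfaces of multidegree `(e 1, ..., e n, a, b)` in `(ℙ ^ 1) ^ (n + 2)`, `e l ≥ M + 2`, and for the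
nondegenerate hypersurfaces of `MP_97d78d_ag.CurveFibrations`, where `V` had to be a hypersurface in a
torus, the base a rational variety with monomial coordinates and the fibres curves on a ruled surface.

Let `V ⇢ W` be an arbitrary dominant rational map of finite degree `r`; it has nothing to do with the
fibration, and it need not be the quotient by a group. Let `W'` be the image of `V` in `W × V'`, and
let `m ≤ r` be the degree of `W' → W`.

* If `m ≤ M + 1` then `p_g(W) = 0` if and only if `κ(W) = -∞`, if and only if `K_W` is not
  pseudo-effective, if and only if `W` is uniruled.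
* If `2 m ≤ M + 1` then `K_W` is pseudo-effective if and only if `κ(W) ≥ n = dim W - 1`, if and only
  if `W` is not uniruled; the Kodaira dimension is the dimension of the image of the canonical map
  (of `H⁰(K_W)`); `κ(W) = n` if and only if `W` is covered by elliptic curves and is not uniruled; and
  `κ(W) = n + 1` if and only if the canonical map of `W` is generically finite, if and only if `W` is
  not covered by rational or elliptic curves.

A projective manifold (or a projective variety with terminal singularities) `X` with nef canonical
divisor is not uniruled, and if `κ(X) ≥ dim X - 1` then `K_X` is semiample (Kawamata, Lai; this is not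
part of the Lean proof). So `K_X` is semiample for all projective manifolds `X` with nef canonical
divisor which are birational to such an image `W`, `2 m ≤ M + 1`; the Iitaka fibration of `X` is, up
to a finite map, the canonical map, and the case `ν(X) = dim X - 1` occurs exactly if `X` is covered
by elliptic curves. There is no condition on the irregularity of `V` or `W`.

Proof. If all the `ω j` have trace zero on `W'` then all regular differentials of `C` have trace zero
on the image `C'` of `C` in the geometric generic fibre of `W' ⇢ V'` (the general fibres of
`V ⇢ V'` are irreducible), so `C'` is rational and `W`, `W'` are uniruled. If some `ω j` has a trace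
`σ j ≠ 0` on `W'` then the traces on `W` of the forms `A(t) ω j`, `A` of degree at most `M`, are the
traces from `W'` to `W` of the `A(t) σ j`. By a theorem of Cayley–Bacharach type not all of them are
zero if `m ≤ M + 1`, and if `2 m ≤ M + 1` the vector fields of `W` which preserve their ratios up to
the first order lift to vector fields on `W'` which kill `t` (`Pool.Agent.R882`). So the canonical map
of `W` has an image of dimension at least `n`. The new part: if the image is not of dimension `n + 1`
then there is such a vector field `D ≠ 0`; the lift of `D` multiplies all the `σ j` by the same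
function, again by Cayley–Bacharach, because it kills `t`. So it kills the functions `σ j / σ i`, and
they are functions of `V'`, because `D` is not zero and the field of functions of `V'` is
algebraically closed in that of `V`, of codimension one. So the traces on `C'` of all regular
differentials of `C` are multiples of one of them, `C'` has genus at most one, and the images of
these curves cover `W`; varieties covered by such curves are not of general type.

`K` and `L` are the function fields of `V` and `W`. Prime divisors over `V` are the divisorial places
`P` of `K` (`Divisorial`), and `P.ord` is the order along `P`. A canonical form (`IsPluri 1`) on a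
variety of dimension `n` is a function of `n` rational vector fields; it is regular at the prime
divisor `P` (`RegAt`) if its value on vector fields which are regular at `P` is regular at `P`.
`KodGe ℂ L n (fun _ => False) j` says that `κ(W) ≥ j`, `Psef ℂ L n (fun _ => False)` that `K_W` is
pseudo-effective, `GeneralType` that `κ(W) = dim W` (`Pool/Agent/W602/GT`), `IsUniruled ℂ L n` that `W`
is uniruled (`Pool/Agent/W619/PQ/Defs.lean`).
-/

set_option autoImplicit false
set_option linter.overlappingInstances false
set_option maxHeartbeats 4000000
set_option synthInstance.maxHeartbeats 400000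

open FF Module IntermediateField Pool.Agent Pool.Agent.W602.GT
open Pool.Agent.W619.PQ (IsUniruled)

namespace Pool.Agent.J4.H19.FC.Curves

variable {K : Type} [Field K] [Algebra ℂ K] {n : ℕ}

/-- `ω` is a section of `K_V - M H`, where `V` has dimension `n` and `H` is the pullback of the
hyperplane class under the map given by `1, t_1, ..., t_N`: the forms `A(t) ω`, where `A` is a monomial
of degree at most `M`, are regular canonical forms. -/
def IsTwisted {N : ℕ} (n M : ℕ) (t : Fin N → K) (ω : (Fin n → Derivation ℂ K K) → K) : Prop :=
  IsPluri 1 ω ∧ ∀ a : Fin N → ℕ, ∑ j, a j ≤ M → ∀ P : Place ℂ K, Divisorial n P →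
    RegAt P (fun D => (∏ j, t j ^ a j) * ω D)

/-- The algebraic closure of the function field `B` of `V'`, in an algebraic closure of the function
field `K` of `V`. -/
abbrev Const (B : IntermediateField ℂ K) : Type := algebraicClosure B (AlgebraicClosure K)

/-- The function field of the geometric generic fibre `C` of the map from `V` to the variety `V'` with
the function field `B`: the compositum of `K` and the algebraic closure of `B`. -/
abbrev GeometricFibre (B : IntermediateField ℂ K) : Type :=
  IntermediateField.adjoin (algebraicClosure B (AlgebraicClosure K))
    (Set.range (algebraMap K (AlgebraicClosure K)))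

/-- The restriction to `C` of the rational function `z` on `V`. -/
noncomputable def restrict (B : IntermediateField ℂ K) (z : K) : GeometricFibre B :=
  ⟨algebraMap K (AlgebraicClosure K) z, IntermediateField.subset_adjoin _ _ ⟨z, rfl⟩⟩

/-- The differential `f dx` of the curve with the function field `F` over `Λ`, where `D = d/dx`, is
regular: at each point `Q` with uniformizer `u`, the function `f dx/du = f / D u` is regular. -/
def IsRegular {Λ F : Type} [Field Λ] [Field F] [Algebra Λ F] (D : Derivation Λ F F) (f : F) :
    Prop :=
  ∀ (Q : Place Λ F) (u : F), Q.ord u = 1 → f = 0 ∨ Q.ord (D u) ≤ Q.ord f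

/-- **The restrictions of the forms `ω j` to the geometric generic fibre `C` generate `H⁰(C, K_C)`.**
Let `x l` be coordinates on `V'` and `ξ` one more coordinate on `V`, and let the `E i` be the dual
vector fields on `V`, so that `ω j = ω j (E) dx_1 ... dx_n dξ`. The restriction of `ω j` to `C` (as a
relative differential) is `ω j (E) dξ`. The condition is that all regular differentials `f dξ` of `C`
are linear combinations of them. -/
def GenerateFibreDifferentials {J : Type} (B : IntermediateField ℂ K)
    (ω : J → (Fin (n + 1) → Derivation ℂ K K) → K) : Prop :=
  ∀ (x : Fin n → K) (ξ : K), (∀ l, x l ∈ B) →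
    IsTranscendenceBasis ℂ (Fin.append x (fun _ : Fin 1 => ξ)) →
    ∀ E : Fin (n + 1) → Derivation ℂ K K,
      (∀ i l, E i (Fin.append x (fun _ : Fin 1 => ξ) l) = if i = l then 1 else 0) →
    ∀ D : Derivation (Const B) (GeometricFibre B) (GeometricFibre B), D (restrict B ξ) = 1 →
    ∀ f : GeometricFibre B, IsRegular D f →
      f ∈ Submodule.span (Const B) (Set.range fun j => restrict B (ω j E))

/-- The geometric genus of the variety with the function field `L` is zero: the only canonical form
which is regular at all prime divisors is `0`. -/
def GenusZero (L : Type) [Field L] [Algebra ℂ L] (n : ℕ) : Prop :=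
  ∀ ω : (Fin n → Derivation ℂ L L) → L, IsPluri 1 ω →
    (∀ P : Place ℂ L, Divisorial n P → RegAt P ω) → ∀ D, ω D = 0

/-- The image of the canonical map of the varieties with function field `L`, of dimension `w`, has
dimension at least `j`: there are canonical forms, regular at all prime divisors, with `j`
algebraically independent ratios. (`KodGe` is the same for pluricanonical forms of some weight.) -/
def CanonicalImageDimGe (L : Type) [Field L] [Algebra ℂ L] (w j : ℕ) : Prop :=
  ∃ ω : Fin (j + 1) → (Fin w → Derivation ℂ L L) → L,
    (∀ i, IsPluri 1 (ω i) ∧ ∀ P : Place ℂ L, Divisorial w P → RegAt P (ω i)) ∧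
    ∃ D, ω 0 D ≠ 0 ∧ AlgebraicIndependent ℂ (fun i : Fin j => ω i.succ D / ω 0 D)

/-- The curve with the function field `F` over the algebraically closed field `Λ` is rational, i.e.
`F = Λ(t)`, or elliptic, i.e. it has a vector field `D` without zeros and poles: `D t` is a unit
for the uniformizers `t` at all points `w`. -/
def IsRationalOrElliptic (Λ F : Type) [Field Λ] [Field F] [Algebra Λ F] : Prop :=
  (∃ t : F, Λ⟮t⟯ = ⊤) ∨ ∃ D : Derivation Λ F F, ∀ (w : Place Λ F) (t : F), w.ord t = 1 →
    D t ≠ 0 ∧ w.ord (D t) = 0

/-- The variety with the function field `L`, of dimension `n + 1`, is covered by an `n`-dimensional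
family of rational or elliptic curves: there are an algebraically closed field `Λ` of transcendence
degree `n` (the algebraic closure of the function field of the base of the family) and a curve over
`Λ` with function field `F` (the geometric generic curve of the family), which is rational or
elliptic, and an embedding of `L` into `F` (the dominant map from the total space to `W`). -/
def IsCoveredByRationalOrElliptic (L : Type) [Field L] [Algebra ℂ L] (n : ℕ) : Prop :=
  ∃ (Λ F : Type) (_ : Field Λ) (_ : Field F) (_ : Algebra ℂ Λ) (_ : Algebra ℂ F)
    (_ : Algebra Λ F) (_ : IsScalarTower ℂ Λ F) (_ : IsAlgClosed Λ) (_ : IsFF Λ F),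
    Algebra.trdeg ℂ Λ = n ∧ IsRationalOrElliptic Λ F ∧ Nonempty (L →ₐ[ℂ] F)

theorem glo_iff {Λ F : Type} [Field Λ] [Field F] [Algebra Λ F] [CharZero Λ] [IsAlgClosed Λ]
    [IsFF Λ F] : N145.SX.GLO Λ F ↔ IsRationalOrElliptic Λ F := by
  unfold IsRationalOrElliptic
  simp only [N145.SX.flat_iff]
  exact ⟨N145.SX.flat_of_glo, N145.SX.glo_of_flat⟩

theorem cover_iff (L : Type) [Field L] [Algebra ℂ L] (n : ℕ) :
    N145.SX.Cov1 L n ↔ IsCoveredByRationalOrElliptic L n := by
  constructor
  · rintro ⟨Λ, F, i1, i2, i3, i4, i5, i6, i7, i8, h1, h2, h3⟩
    have hch : CharZero Λ := charZero_of_injective_algebraMap (algebraMap ℂ Λ).injective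
    exact ⟨Λ, F, i1, i2, i3, i4, i5, i6, i7, i8, h1, glo_iff.1 h2, h3⟩
  · rintro ⟨Λ, F, i1, i2, i3, i4, i5, i6, i7, i8, h1, h2, h3⟩
    have hch : CharZero Λ := charZero_of_injective_algebraMap (algebraMap ℂ Λ).injective
    exact ⟨Λ, F, i1, i2, i3, i4, i5, i6, i7, i8, h1, glo_iff.2 h2, h3⟩

/-- **Abundance for the images of fibrations by curves.** Let `V` be a variety of dimension `n + 1`
with function field `K`, and `V ⇢ V'` the map to a variety of dimension `n` given by the rational
functions `t l`, with irreducible general fibres (`hcl`). Suppose that there are sections `ω j` of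
`K_V - M H` whose restrictions to the geometric generic fibre generate its regular differentials. Let
`V ⇢ W` be a dominant rational map of finite degree, `L` the function field of `W`, and `m` the degree
over `W` of the image of `V` in `W × V'`.
If `m ≤ M + 1` then `p_g(W) = 0` if and only if `κ(W) = -∞`, if and only if `K_W` is not
pseudo-effective, if and only if `W` is uniruled. If `2 m ≤ M + 1` then: `K_W` is pseudo-effective if
and only if `κ(W) ≥ n = dim W - 1`, if and only if `W` is not uniruled; `κ(W) ≥ j` if and only if the
image of the canonical map of `W` has dimension at least `j`; `κ(W) = n` if and only if `W` is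
not uniruled, but covered by rational or elliptic curves; and `W` is of general type if and only if
the canonical map of `W` is generically finite, if and only if `W` is not covered by rational or
elliptic curves. -/
theorem result [Algebra.EssFiniteType ℂ K] {N M : ℕ} (hK : Algebra.trdeg ℂ K = (n + 1 : ℕ))
    {t : Fin N → K} (ht : Algebra.trdeg ℂ (IntermediateField.adjoin ℂ (Set.range t)) = n)
    (hcl : ∀ g : K, IsAlgebraic (IntermediateField.adjoin ℂ (Set.range t)) g →
      g ∈ IntermediateField.adjoin ℂ (Set.range t))
    {J : Type} [Finite J] {ω : J → (Fin (n + 1) → Derivation ℂ K K) → K}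
    (hω : ∀ j, IsTwisted (n + 1) M t (ω j))
    (hgen : GenerateFibreDifferentials (IntermediateField.adjoin ℂ (Set.range t)) ω)
    (L : Type) [Field L] [Algebra ℂ L] [Algebra L K] [IsScalarTower ℂ L K]
    [FiniteDimensional L K] :
    (finrank L (IntermediateField.adjoin L (Set.range t)) ≤ M + 1 →
      [GenusZero L (n + 1), ¬ KodGe ℂ L (n + 1) (fun _ => False) 0,
        ¬ Psef ℂ L (n + 1) (fun _ => False), IsUniruled ℂ L (n + 1)].TFAE) ∧
    (2 * finrank L (IntermediateField.adjoin L (Set.range t)) ≤ M + 1 →
      [Psef ℂ L (n + 1) (fun _ => False), KodGe ℂ L (n + 1) (fun _ => False) n,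
        ¬ IsUniruled ℂ L (n + 1)].TFAE ∧
      (∀ j : ℕ, KodGe ℂ L (n + 1) (fun _ => False) j ↔ CanonicalImageDimGe L (n + 1) j) ∧
      ((KodGe ℂ L (n + 1) (fun _ => False) n ∧ ¬ KodGe ℂ L (n + 1) (fun _ => False) (n + 1)) ↔
        (¬ IsUniruled ℂ L (n + 1) ∧ IsCoveredByRationalOrElliptic L n)) ∧
      [GeneralType ℂ L (n + 1), CanonicalImageDimGe L (n + 1) (n + 1),
        ¬ IsCoveredByRationalOrElliptic L n].TFAE) := by
  have hL : Algebra.trdeg ℂ L = (n + 1 : ℕ) := Pool.Agent.Y184.NT.trdeg_below (K := K) hK
  obtain ⟨h1, h2⟩ := J4.H19.FC.main (L := L) hK ht hcl hω hgen
  refine ⟨h1, fun hm => ?_⟩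
  obtain ⟨h3, h4, h5⟩ := h2 hm
  rw [cover_iff] at h4
  have a2 : KodGe ℂ L (n + 1) (fun _ => False) n ↔ ¬ IsUniruled ℂ L (n + 1) := h3.out 1 2
  have a3 : KodGe ℂ L (n + 1) (fun _ => False) (n + 1) ↔
      ¬ IsCoveredByRationalOrElliptic L n := h4.out 0 2
  refine ⟨h3, h5, ?_, ?_⟩
  · rw [a2, a3, not_not]
  · rwa [N145.SX.kodGe_iff hL] at h4

end Pool.Agent.J4.H19.FC.Curves
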