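import Pool.Agent.R882.GLd
import Pool.Agent.N273.SX.FIB1

/-!
Fibrations by curves: if the traces of the canonical forms are proportional then the images of the
fibres have genus at most one.
-/

set_option autoImplicit false
set_option linter.overlappingInstances false
set_option linter.unusedSectionVars false
set_option maxHeartbeats 4000000
set_option synthInstance.maxHeartbeats 400000

open IntermediateField Module FF Pool.Agent.W619.PQ Pool.Agent.W603.LV
open Pool.Agent.W602.GT (Divisorial RegAt IsPluri)
open Pool.Agent.N145.PL (HL)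
open Pool.Agent.N145.SX (GLO)
open Pool.Agent.R882.GL (trace_fib reg_res)

namespace Pool.Agent.J4.H19.FC

section

variable {B K Λ F : Type} [Field B] [Field K] [Field Λ] [Field F] [Algebra B K] [Algebra B Λ]
  [Algebra Λ F] [Algebra K F] [Algebra B F] [IsScalarTower B Λ F] [IsScalarTower B K F]
  [CharZero B] [Algebra.IsAlgebraic B Λ] [IsAlgClosed Λ]

/-- **The geometric generic fibre.** If the restrictions of the `g j` generate the regular
differentials of the geometric generic fibre and their traces on `E` are multiples of one function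
then the geometric generic fibre of `E` has genus at most one. -/
theorem glo_fib (hF : IsFF Λ F)
    (hcl : ∀ x : K, IsIntegral B x → ∃ y : B, algebraMap B K y = x)
    (hgenF : IntermediateField.adjoin Λ (Set.range (algebraMap K F)) = ⊤)
    (E : IntermediateField B K) [FiniteDimensional E K] (FE : IntermediateField Λ F)
    (hFE : FE = IntermediateField.adjoin Λ (algebraMap K F '' E)) {ξ : K} (hξE : ξ ∈ E)
    {D : Derivation Λ F F} (hD : D (algebraMap K F ξ) = 1) {J : Type} (g : J → K)
    (hspan : ∀ f : F, f ≠ 0 → (∀ Q : Place Λ F, vo Q D ≤ Q.ord f) →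
      f ∈ Submodule.span Λ (Set.range fun j => algebraMap K F (g j)))
    (S0 : K) (htr : ∀ j, ∃ c : B, ((Algebra.trace E K (g j) : E) : K) = algebraMap B K c * S0) :
    IsFF Λ FE ∧ GLO Λ FE := by
  classical
  have hΛ0 : CharZero Λ := charZero_of_injective_algebraMap (algebraMap B Λ).injective
  obtain ⟨hfin, htrace⟩ := trace_fib (F := F) hcl hgenF E FE hFE
  have hess : Algebra.EssFiniteType Λ F := hF.ess
  have hessE : Algebra.EssFiniteType Λ FE := Pool.Agent.TH466.QG.ess_below (K := F)
  have htrE : Algebra.trdeg Λ FE = 1 := by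
    have h1 := trdeg_add_eq Λ FE (A := F)
    have h2 : Algebra.trdeg FE F = 0 := trdeg_eq_zero
    rw [h2, add_zero, hF.trdeg] at h1
    exact h1
  have hFFE : IsFF Λ FE := ⟨hessE, htrE⟩
  have hξF : algebraMap K F ξ ∈ FE := by
    rw [hFE]
    exact IntermediateField.subset_adjoin _ _ ⟨ξ, hξE, rfl⟩
  refine ⟨hFFE, Pool.Agent.N273.SX.glo_of_line D ⟨algebraMap K F ξ, hξF⟩ hD
    (algebraMap K F S0) fun f hf => ?_⟩
  by_cases hf0 : f = 0
  · exact ⟨0, by rw [hf0, map_zero, map_zero, map_zero, zero_mul]⟩
  have hreg : ∀ Q : Place Λ F, vo Q D ≤ Q.ord f := by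
    intro Q
    have h1 := (hf Q).resolve_left hf0
    rw [Pool.Agent.N273.SX.bd_empty, sub_zero] at h1
    exact h1
  have hmem := hspan f hf0 hreg
  clear hf hf0 hreg
  induction hmem using Submodule.span_induction with
  | zero => exact ⟨0, by rw [map_zero, map_zero, map_zero, zero_mul]⟩
  | add u v _ _ hu hv =>
    obtain ⟨c, hc⟩ := hu
    obtain ⟨d, hd⟩ := hv
    exact ⟨c + d, by rw [map_add, map_add, hc, hd, map_add, add_mul]⟩
  | smul a u _ hu =>
    obtain ⟨c, hc⟩ := hu
    have h10 : a • u = (algebraMap Λ FE a) • u := by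
      rw [Algebra.smul_def, Algebra.smul_def, ← IsScalarTower.algebraMap_apply Λ FE F]
    refine ⟨a * c, ?_⟩
    rw [h10, map_smul, smul_eq_mul, map_mul, hc, ← IsScalarTower.algebraMap_apply Λ FE F,
      map_mul]
    ring
  | mem y hy =>
    obtain ⟨j, rfl⟩ := hy
    obtain ⟨c, hc⟩ := htr j
    refine ⟨algebraMap B Λ c, ?_⟩
    have h11 := htrace (g j)
    rw [hc, map_mul (algebraMap K F), ← IsScalarTower.algebraMap_apply B K F,
      IsScalarTower.algebraMap_apply B Λ F] at h11
    exact h11

end

end Pool.Agent.J4.H19.FC
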